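import Mathlib

/-!
Time estimate (module T of the DR project, MP_562430_an): almost orthogonality in time of
exponentials with frequencies in different unit bands.
-/

set_option autoImplicit false

namespace Pool.Agent.DR

open MeasureTheory Complex Finset

noncomputable section

/-- The summable majorant on the integers. -/
def majo (d : ℤ) : ℝ := 1 / (1 + (d : ℝ) ^ 2)

lemma majo_nonneg (d : ℤ) : 0 ≤ majo d := by
  unfold majo; positivity

lemma majo_neg (d : ℤ) : majo (-d) = majo d := by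
  unfold majo; simp

lemma majo_summable : Summable majo := by
  have h1 : Summable (fun d : ℤ => 1 / (d : ℝ) ^ 2) := Real.summable_one_div_int_pow.2 (by norm_num)
  have h2 : Summable (fun d : ℤ => if d = 0 then (1 : ℝ) else 0) := (hasSum_ite_eq 0 1).summable
  refine Summable.of_nonneg_of_le majo_nonneg (fun d => ?_) (h1.add h2)
  by_cases hd : d = 0
  · subst hd; simp [majo]
  · simp only [hd, if_false, add_zero, majo]
    have : (0 : ℝ) < (d : ℝ) ^ 2 := by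
      have : (d : ℝ) ≠ 0 := by exact_mod_cast hd
      positivity
    apply one_div_le_one_div_of_le this
    linarith

/-- The constant in the Schur test. -/
def majoSum : ℝ := ∑' d : ℤ, majo d

lemma majo_sum_le (s : Finset ℤ) (b : ℤ) : ∑ b' ∈ s, majo (b - b') ≤ majoSum := by
  have h : ∑ b' ∈ s, majo (b - b') = ∑ d ∈ s.image (fun b' => b - b'), majo d := by
    rw [Finset.sum_image]
    intro x _ y _ hxy
    simpa using hxy
  rw [h]
  exact majo_summable.sum_le_tsum _ (fun d _ => majo_nonneg d)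

lemma majoSum_nonneg : 0 ≤ majoSum := tsum_nonneg majo_nonneg

/-- Schur test. -/
lemma schur (s : Finset ℤ) (V : ℤ → ℝ) :
    ∑ b ∈ s, ∑ b' ∈ s, V b * V b' * majo (b - b') ≤ majoSum * ∑ b ∈ s, V b ^ 2 := by
  have h1 : ∀ b ∈ s, ∀ b' ∈ s, V b * V b' * majo (b - b')
      ≤ (V b ^ 2 * majo (b - b') + V b' ^ 2 * majo (b - b')) / 2 := by
    intro b _ b' _
    have := majo_nonneg (b - b')
    nlinarith [mul_nonneg this (sq_nonneg (V b - V b'))]
  have h2 : ∑ b ∈ s, ∑ b' ∈ s, V b * V b' * majo (b - b')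
      ≤ ∑ b ∈ s, ∑ b' ∈ s, (V b ^ 2 * majo (b - b') + V b' ^ 2 * majo (b - b')) / 2 :=
    Finset.sum_le_sum fun b hb => Finset.sum_le_sum fun b' hb' => h1 b hb b' hb'
  refine h2.trans ?_
  have h3 : ∑ b ∈ s, ∑ b' ∈ s, V b ^ 2 * majo (b - b') ≤ majoSum * ∑ b ∈ s, V b ^ 2 := by
    rw [Finset.mul_sum]
    refine Finset.sum_le_sum fun b _ => ?_
    rw [← Finset.mul_sum, mul_comm]
    exact mul_le_mul_of_nonneg_right (majo_sum_le s b) (sq_nonneg _)
  have h4 : ∑ b ∈ s, ∑ b' ∈ s, V b' ^ 2 * majo (b - b') ≤ majoSum * ∑ b ∈ s, V b ^ 2 := by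
    rw [Finset.sum_comm]
    refine le_trans (le_of_eq ?_) h3
    refine Finset.sum_congr rfl fun b _ => Finset.sum_congr rfl fun b' _ => ?_
    rw [← majo_neg, neg_sub]
  have h5 : ∑ b ∈ s, ∑ b' ∈ s, (V b ^ 2 * majo (b - b') + V b' ^ 2 * majo (b - b')) / 2
      = ((∑ b ∈ s, ∑ b' ∈ s, V b ^ 2 * majo (b - b')) +
        ∑ b ∈ s, ∑ b' ∈ s, V b' ^ 2 * majo (b - b')) / 2 := by
    rw [← Finset.sum_add_distrib, Finset.sum_div]
    refine Finset.sum_congr rfl fun b _ => ?_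
    rw [← Finset.sum_add_distrib, Finset.sum_div]
  rw [h5]
  linarith

/-- The Gaussian weight. -/
def wt (T t : ℝ) : ℝ := Real.exp 1 * Real.exp (-(1 / T ^ 2) * t ^ 2)

lemma wt_pos (T t : ℝ) : 0 < wt T t := by unfold wt; positivity

lemma one_le_wt {T t : ℝ} (hT : 0 < T) (h0 : 0 ≤ t) (h1 : t ≤ T) : 1 ≤ wt T t := by
  unfold wt
  rw [← Real.exp_add]
  apply Real.one_le_exp
  have : t ^ 2 ≤ T ^ 2 := by nlinarith
  have h : 1 / T ^ 2 * t ^ 2 ≤ 1 := by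
    rw [one_div, inv_mul_le_iff₀ (by positivity)]
    linarith
  linarith

lemma integral_exp_wt {T : ℝ} (hT : 0 < T) (x : ℝ) :
    ∫ t : ℝ, cexp (I * (x : ℂ) * (t : ℂ)) * cexp (-((1 / T ^ 2 : ℝ) : ℂ) * (t : ℂ) ^ 2)
      = (Real.pi / ((1 / T ^ 2 : ℝ) : ℂ)) ^ (1 / 2 : ℂ) *
        cexp (-(x : ℂ) ^ 2 / (4 * ((1 / T ^ 2 : ℝ) : ℂ))) := by
  have hb : 0 < (((1 / T ^ 2 : ℝ) : ℂ)).re := by
    rw [Complex.ofReal_re]; positivity
  exact fourierIntegral_gaussian hb (x : ℂ)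

/-- The constant `e √π T max(1, 4/T²) * 3`. -/
def kc (T : ℝ) : ℝ := ‖(Real.pi / ((1 / T ^ 2 : ℝ) : ℂ)) ^ (1 / 2 : ℂ)‖ * Real.exp 1

lemma kc_nonneg (T : ℝ) : 0 ≤ kc T := by unfold kc; positivity

lemma norm_integral_le {T : ℝ} (hT : 0 < T) (x : ℝ) :
    ‖∫ t : ℝ, cexp (I * (x : ℂ) * (t : ℂ)) * cexp (-((1 / T ^ 2 : ℝ) : ℂ) * (t : ℂ) ^ 2)‖
      = ‖(Real.pi / ((1 / T ^ 2 : ℝ) : ℂ)) ^ (1 / 2 : ℂ)‖ * Real.exp (-(T ^ 2 * x ^ 2 / 4)) := by
  rw [integral_exp_wt hT, norm_mul]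
  congr 1
  rw [Complex.norm_exp]
  congr 1
  have : (-(x : ℂ) ^ 2 / (4 * ((1 / T ^ 2 : ℝ) : ℂ))) = ((-(T ^ 2 * x ^ 2 / 4) : ℝ) : ℂ) := by
    push_cast
    have : (T : ℂ) ≠ 0 := by exact_mod_cast hT.ne'
    field_simp
  rw [this, Complex.ofReal_re]

lemma exp_le_majo {T : ℝ} (hT : 0 < T) (x y : ℝ) :
    Real.exp (-(T ^ 2 * (x - y) ^ 2 / 4)) ≤ 3 * (1 + 4 / T ^ 2) * majo (⌊x⌋ - ⌊y⌋) := by
  have h1 : Real.exp (-(T ^ 2 * (x - y) ^ 2 / 4)) ≤ 1 / (1 + T ^ 2 * (x - y) ^ 2 / 4) := by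
    rw [Real.exp_neg, one_div]
    apply inv_anti₀ (by positivity)
    have := Real.add_one_le_exp (T ^ 2 * (x - y) ^ 2 / 4)
    linarith
  refine h1.trans ?_
  have h2 : 1 / (1 + T ^ 2 * (x - y) ^ 2 / 4) ≤ (1 + 4 / T ^ 2) * (1 / (1 + (x - y) ^ 2)) := by
    rw [mul_one_div, div_le_div_iff₀ (by positivity) (by positivity)]
    have e : (1 + 4 / T ^ 2) * (1 + T ^ 2 * (x - y) ^ 2 / 4)
        = 1 + T ^ 2 * (x - y) ^ 2 / 4 + 4 / T ^ 2 + (x - y) ^ 2 := by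
      field_simp
      ring
    rw [e]
    have : 0 ≤ T ^ 2 * (x - y) ^ 2 / 4 := by positivity
    have : 0 ≤ 4 / T ^ 2 := by positivity
    linarith
  refine h2.trans ?_
  have h3 : 1 / (1 + (x - y) ^ 2) ≤ 3 * majo (⌊x⌋ - ⌊y⌋) := by
    unfold majo
    rw [mul_one_div, div_le_div_iff₀ (by positivity) (by positivity)]
    push_cast
    have hx1 := Int.floor_le x
    have hx2 := Int.lt_floor_add_one x
    have hy1 := Int.floor_le y
    have hy2 := Int.lt_floor_add_one y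
    set d : ℝ := (⌊x⌋ : ℝ) - (⌊y⌋ : ℝ) with hd
    have hlo : d - 1 < x - y := by rw [hd]; linarith
    have hhi : x - y < d + 1 := by rw [hd]; linarith
    have hz : (d - (x - y)) ^ 2 ≤ 1 := by nlinarith
    nlinarith [sq_nonneg (d - 2 * (x - y)), sq_nonneg (d - (x-y)), sq_nonneg (d + (x-y)), sq_nonneg ((x-y) - 2 * (d - (x-y))), sq_nonneg ((x-y) + (d - (x-y)))]
  have h4 : 0 ≤ 1 + 4 / T ^ 2 := by positivity
  calc (1 + 4 / T ^ 2) * (1 / (1 + (x - y) ^ 2))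
      ≤ (1 + 4 / T ^ 2) * (3 * majo (⌊x⌋ - ⌊y⌋)) := mul_le_mul_of_nonneg_left h3 h4
    _ = _ := by ring

/-- The constant of the time estimate. -/
def timeC (T : ℝ) : ℝ := kc T * (3 * (1 + 4 / T ^ 2)) * majoSum

lemma timeC_nonneg (T : ℝ) : 0 ≤ timeC T := by
  unfold timeC
  have := kc_nonneg T
  have := majoSum_nonneg
  positivity

variable {ι E : Type*} [NormedAddCommGroup E] [InnerProductSpace ℂ E]

lemma normsq_expand (J : Finset ι) (w : ι → ℝ) (v : ι → E) (t : ℝ) :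
    ((‖∑ j ∈ J, cexp (I * ((t * w j : ℝ) : ℂ)) • v j‖ ^ 2 : ℝ) : ℂ)
      = ∑ j ∈ J, ∑ l ∈ J, cexp (I * ((w j - w l : ℝ) : ℂ) * (t : ℂ)) * inner ℂ (v l) (v j) := by
  have h := inner_self_eq_norm_sq_to_K (𝕜 := ℂ) (∑ j ∈ J, cexp (I * ((t * w j : ℝ) : ℂ)) • v j)
  have h' : ((‖∑ j ∈ J, cexp (I * ((t * w j : ℝ) : ℂ)) • v j‖ ^ 2 : ℝ) : ℂ)
      = inner ℂ (∑ j ∈ J, cexp (I * ((t * w j : ℝ) : ℂ)) • v j)
        (∑ j ∈ J, cexp (I * ((t * w j : ℝ) : ℂ)) • v j) := by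
    rw [h]; push_cast; rfl
  rw [h', inner_sum]
  refine Finset.sum_congr rfl fun j _ => ?_
  rw [sum_inner]
  refine Finset.sum_congr rfl fun l _ => ?_
  rw [inner_smul_left, inner_smul_right, ← mul_assoc]
  congr 1
  rw [← Complex.exp_conj, ← Complex.exp_add]
  congr 1
  rw [map_mul, Complex.conj_I, Complex.conj_ofReal]
  push_cast
  ring

theorem time_band (T : ℝ) (hT : 0 < T) (J : Finset ι) (w : ι → ℝ) (v : ι → E) :
    ∫ t in (0 : ℝ)..T, ‖∑ j ∈ J, cexp (I * ((t * w j : ℝ) : ℂ)) • v j‖ ^ 2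
      ≤ timeC T * ∑ b ∈ J.image (fun j => ⌊w j⌋),
        (∑ j ∈ J with ⌊w j⌋ = b, ‖v j‖) ^ 2 := by
  classical
  set F : ℝ → ℝ := fun t => ‖∑ j ∈ J, cexp (I * ((t * w j : ℝ) : ℂ)) • v j‖ ^ 2 with hF
  have hFc : Continuous F := by
    rw [hF]; fun_prop
  have hF0 : ∀ t, 0 ≤ F t := fun t => by rw [hF]; positivity
  -- the integrand with weight
  set g : ι → ι → ℝ → ℂ := fun j l t => cexp (I * ((w j - w l : ℝ) : ℂ) * (t : ℂ)) *
    cexp (-((1 / T ^ 2 : ℝ) : ℂ) * (t : ℂ) ^ 2) with hg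
  have hgi : ∀ j l, Integrable (g j l) := by
    intro j l
    have hb : 0 < (((1 / T ^ 2 : ℝ) : ℂ)).re := by
      rw [Complex.ofReal_re]; positivity
    have h0 := integrable_cexp_neg_mul_sq hb
    refine Integrable.bdd_mul (c := 1) h0 ?_ ?_
    · exact (by fun_prop : Continuous fun t : ℝ => cexp (I * ((w j - w l : ℝ) : ℂ) * (t : ℂ))).aestronglyMeasurable
    · refine Filter.Eventually.of_forall fun t => ?_
      rw [Complex.norm_exp]
      simp
  have hexp : ∀ t, ((wt T t * F t : ℝ) : ℂ)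
      = ∑ j ∈ J, ∑ l ∈ J, ((Real.exp 1 : ℝ) : ℂ) * inner ℂ (v l) (v j) * g j l t := by
    intro t
    rw [Complex.ofReal_mul, hF]
    simp only
    rw [normsq_expand J w v t, Finset.mul_sum]
    refine Finset.sum_congr rfl fun j _ => ?_
    rw [Finset.mul_sum]
    refine Finset.sum_congr rfl fun l _ => ?_
    rw [hg]
    simp only [wt]
    push_cast
    ring
  have hint : Integrable (fun t => ((wt T t * F t : ℝ) : ℂ)) := by
    have : (fun t => ((wt T t * F t : ℝ) : ℂ))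
        = fun t => ∑ j ∈ J, ∑ l ∈ J, ((Real.exp 1 : ℝ) : ℂ) * inner ℂ (v l) (v j) * g j l t :=
      funext hexp
    rw [this]
    exact integrable_finsetSum _ fun j _ => integrable_finsetSum _ fun l _ =>
      (hgi j l).const_mul _
  have hintR : Integrable (fun t => wt T t * F t) := by
    have := hint.re
    simpa using this
  -- first comparison
  have hI1 : ∫ t in (0 : ℝ)..T, F t ≤ ∫ t : ℝ, wt T t * F t := by
    rw [intervalIntegral.integral_of_le hT.le]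
    calc ∫ t in Set.Ioc 0 T, F t ≤ ∫ t in Set.Ioc 0 T, wt T t * F t := by
          refine setIntegral_mono_on ?_ hintR.integrableOn measurableSet_Ioc ?_
          · exact (hFc.integrableOn_Icc).mono_set Set.Ioc_subset_Icc_self
          · intro t ht
            have := one_le_wt hT ht.1.le ht.2
            nlinarith [hF0 t]
      _ ≤ ∫ t : ℝ, wt T t * F t :=
          setIntegral_le_integral hintR
            (Filter.Eventually.of_forall fun t => mul_nonneg (wt_pos T t).le (hF0 t))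
  refine hI1.trans ?_
  -- second: norm bound
  have hI2 : ∫ t : ℝ, wt T t * F t ≤ ∑ j ∈ J, ∑ l ∈ J, ‖v j‖ * ‖v l‖ *
      (kc T * (3 * (1 + 4 / T ^ 2)) * majo (⌊w j⌋ - ⌊w l⌋)) := by
    have e1 : ((∫ t : ℝ, wt T t * F t : ℝ) : ℂ)
        = ∑ j ∈ J, ∑ l ∈ J, ((Real.exp 1 : ℝ) : ℂ) * inner ℂ (v l) (v j) * ∫ t, g j l t := by
      rw [← integral_complex_ofReal]
      rw [integral_congr_ae (Filter.Eventually.of_forall hexp)]
      rw [integral_finsetSum _ fun j _ => integrable_finsetSum _ fun l _ =>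
        (hgi j l).const_mul _]
      refine Finset.sum_congr rfl fun j _ => ?_
      rw [integral_finsetSum _ fun l _ => (hgi j l).const_mul _]
      refine Finset.sum_congr rfl fun l _ => ?_
      rw [integral_const_mul]
    have e2 : ∫ t : ℝ, wt T t * F t ≤ ‖((∫ t : ℝ, wt T t * F t : ℝ) : ℂ)‖ := by
      rw [Complex.norm_real]
      exact le_abs_self _
    refine e2.trans ?_
    rw [e1]
    refine (norm_sum_le _ _).trans (Finset.sum_le_sum fun j _ => ?_)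
    refine (norm_sum_le _ _).trans (Finset.sum_le_sum fun l _ => ?_)
    rw [norm_mul, norm_mul]
    have n1 : ‖((Real.exp 1 : ℝ) : ℂ)‖ = Real.exp 1 := by
      rw [Complex.norm_real, Real.norm_eq_abs, abs_of_pos (Real.exp_pos 1)]
    have n2 : ‖inner ℂ (v l) (v j)‖ ≤ ‖v l‖ * ‖v j‖ := norm_inner_le_norm _ _
    have n3 : ‖∫ t, g j l t‖ ≤ ‖(Real.pi / ((1 / T ^ 2 : ℝ) : ℂ)) ^ (1 / 2 : ℂ)‖ *
        (3 * (1 + 4 / T ^ 2) * majo (⌊w j⌋ - ⌊w l⌋)) := by
      rw [hg]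
      simp only
      rw [norm_integral_le hT]
      exact mul_le_mul_of_nonneg_left (exp_le_majo hT _ _) (norm_nonneg _)
    rw [n1]
    calc Real.exp 1 * ‖inner ℂ (v l) (v j)‖ * ‖∫ t, g j l t‖
        ≤ Real.exp 1 * (‖v l‖ * ‖v j‖) * (‖(Real.pi / ((1 / T ^ 2 : ℝ) : ℂ)) ^ (1 / 2 : ℂ)‖ *
        (3 * (1 + 4 / T ^ 2) * majo (⌊w j⌋ - ⌊w l⌋))) := by
          apply mul_le_mul _ n3 (norm_nonneg _) (by positivity)
          exact mul_le_mul_of_nonneg_left n2 (Real.exp_pos 1).le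
      _ = _ := by unfold kc; ring
  refine hI2.trans ?_
  -- group by floors
  set V : ℤ → ℝ := fun b => ∑ j ∈ J with ⌊w j⌋ = b, ‖v j‖ with hV
  set s : Finset ℤ := J.image (fun j => ⌊w j⌋) with hs
  have hgroup : ∑ j ∈ J, ∑ l ∈ J, ‖v j‖ * ‖v l‖ *
      (kc T * (3 * (1 + 4 / T ^ 2)) * majo (⌊w j⌋ - ⌊w l⌋))
      = kc T * (3 * (1 + 4 / T ^ 2)) * ∑ b ∈ s, ∑ b' ∈ s, V b * V b' * majo (b - b') := by
    have hmaps : ∀ j ∈ J, ⌊w j⌋ ∈ s := fun j hj => Finset.mem_image_of_mem _ hj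
    rw [← Finset.sum_fiberwise_of_maps_to hmaps, Finset.mul_sum]
    refine Finset.sum_congr rfl fun b _ => ?_
    have : ∀ j ∈ J.filter (fun j => ⌊w j⌋ = b), ∑ l ∈ J, ‖v j‖ * ‖v l‖ *
        (kc T * (3 * (1 + 4 / T ^ 2)) * majo (⌊w j⌋ - ⌊w l⌋))
        = ∑ b' ∈ s, ‖v j‖ * (V b' * (kc T * (3 * (1 + 4 / T ^ 2)) * majo (b - b'))) := by
      intro j hj
      rw [← Finset.sum_fiberwise_of_maps_to hmaps]
      refine Finset.sum_congr rfl fun b' _ => ?_
      rw [hV]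
      simp only
      rw [Finset.sum_mul, Finset.mul_sum]
      refine Finset.sum_congr rfl fun l hl => ?_
      rw [(Finset.mem_filter.1 hj).2, (Finset.mem_filter.1 hl).2]
      ring
    rw [Finset.sum_congr rfl this, Finset.sum_comm, Finset.mul_sum]
    refine Finset.sum_congr rfl fun b' _ => ?_
    rw [← Finset.sum_mul]
    rw [hV]
    ring
  rw [hgroup]
  have hs' := schur s V
  have hk : 0 ≤ kc T * (3 * (1 + 4 / T ^ 2)) := by
    have := kc_nonneg T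
    positivity
  calc kc T * (3 * (1 + 4 / T ^ 2)) * ∑ b ∈ s, ∑ b' ∈ s, V b * V b' * majo (b - b')
      ≤ kc T * (3 * (1 + 4 / T ^ 2)) * (majoSum * ∑ b ∈ s, V b ^ 2) :=
        mul_le_mul_of_nonneg_left hs' hk
    _ = _ := by unfold timeC; ring

end

end Pool.Agent.DR
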